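import Pool.Agent.SPV.StmtsA

/-!
# Squad SPV, row DIM: the dimension count
-/

set_option autoImplicit false

namespace Pool.Agent.SPV.H30

open Finset Pool.Agent.SPV

theorem dim : DimStmt := by
  classical
  intro K _ σ _ n M P v hdeg hne hzero
  set S : Set (σ →₀ ℕ) := {s | (s.sum fun _ e => e) ≤ M} with hS
  -- the number of exponents
  let φ : S → {P : Option σ → ℕ // ∑ i, P i = M} := fun s =>
    ⟨fun o => o.elim (M - (s.1.sum fun _ e => e)) (fun i => s.1 i), by
      have h1 : (s.1.sum fun _ e => e) ≤ M := s.2
      have h2 : (s.1.sum fun _ e => e) = ∑ i, s.1 i := by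
        rw [Finsupp.sum_fintype]
        intro i; rfl
      rw [Fintype.sum_option]
      simp only [Option.elim_none, Option.elim_some]
      omega⟩
  have hφ : Function.Injective φ := by
    intro s t hst
    apply Subtype.ext
    apply Finsupp.ext
    intro i
    have h1 := congrFun (congrArg Subtype.val hst) (some i)
    exact h1
  have hfin : Finite {P : Option σ → ℕ // ∑ i, P i = M} :=
    Finite.of_equiv _ (Sym.equivNatSumOfFintype (Option σ) M)
  have hSfin : Finite S := Finite.of_injective φ hφ
  have hcard : Nat.card S ≤ (M + Fintype.card σ).choose (Fintype.card σ) := by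
    calc Nat.card S ≤ Nat.card {P : Option σ → ℕ // ∑ i, P i = M} :=
          Nat.card_le_card_of_injective φ hφ
      _ = Nat.card (Sym (Option σ) M) := Nat.card_congr (Sym.equivNatSumOfFintype (Option σ) M).symm
      _ = (Fintype.card (Option σ) + M - 1).choose M := by
          rw [Nat.card_eq_fintype_card, Sym.card_sym_eq_choose]
      _ = (M + Fintype.card σ).choose (Fintype.card σ) := by
          rw [Fintype.card_option, show Fintype.card σ + 1 + M - 1 = M + Fintype.card σ by omega]
          exact Nat.choose_symm_add
  -- the space
  have hmem : ∀ i, P i ∈ MvPolynomial.restrictSupport K S := by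
    intro i
    have h1 := (MvPolynomial.mem_restrictTotalDegree (σ := σ) (R := K) M (P i)).mpr (hdeg i)
    exact h1
  have hfd : Module.Finite K (MvPolynomial.restrictSupport K S) :=
    Module.Finite.of_basis (MvPolynomial.basisRestrictSupport K S)
  have hrank : Module.finrank K (MvPolynomial.restrictSupport K S) = Nat.card S :=
    Module.finrank_eq_nat_card_basis (MvPolynomial.basisRestrictSupport K S)
  have hli : LinearIndependent K (fun i => (⟨P i, hmem i⟩ : MvPolynomial.restrictSupport K S)) := by
    rw [Fintype.linearIndependent_iff]
    intro g hg j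
    have h1 : ∑ i, g i • P i = 0 := by
      have := congrArg Subtype.val hg
      simpa using this
    have h2 := congrArg (MvPolynomial.eval (v j)) h1
    rw [map_sum, map_zero, Finset.sum_eq_single j] at h2
    · rw [MvPolynomial.smul_eval] at h2
      exact (mul_eq_zero.mp h2).resolve_right (hne j)
    · intro i _ hi
      rw [MvPolynomial.smul_eval, hzero i j hi, mul_zero]
    · intro hj
      exact absurd (mem_univ j) hj
  have h3 := hli.fintype_card_le_finrank
  rw [Fintype.card_fin, hrank] at h3
  exact h3.trans hcard

end Pool.Agent.SPV.H30
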